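import Pool.Agent.TH751.RM.Bits

/-!
Simulation of goto code by the machine.
-/

set_option autoImplicit false

namespace Pool.Agent.TH751.RM

open Pool.Agent.H584R2.Dg
open Pool.Agent.H539R2 (Prg Ins comp)

variable {S : Type} {M K : ℕ} {D : ℕ → Ins ⊕ Option S}

/-- all tapes live in the first `s` cells -/
def spT (s : ℕ) (T : Fin (K + 1) → Tape Sy) : Prop := ∀ i, Within (none : Sy) s (T i)

theorem spT.upd {s : ℕ} {T : Fin (K + 1) → Tape Sy} (h : spT s T) {r : Fin (K + 1)} {t : Tape Sy}
    (ht : Within (none : Sy) s t) : spT s (Function.update T r t) := by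
  intro i
  by_cases hi : i = r
  · subst hi; rw [Function.update_self]; exact ht
  · rw [Function.update_of_ne hi]; exact h i

/-- configurations with all heads on the cells `0` -/
@[reducible] def hm (D : ℕ → Ins ⊕ Option S) (M : ℕ) (p : ℕ) (T : Fin (K + 1) → Tape Sy) (out : List S) :
    Cfg (mac M K D) := ⟨some (cl M p, none), T, out⟩

/-- scanning configurations -/
@[reducible] def sc (D : ℕ → Ins ⊕ Option S) (M : ℕ) (p : ℕ) (T : Fin (K + 1) → Tape Sy) (out : List S) :
    Cfg (mac M K D) := ⟨some (cl M p, some none), T, out⟩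

/-- returning configurations -/
@[reducible] def rt (D : ℕ → Ins ⊕ Option S) (M : ℕ) (p : ℕ) (r : Fin (K + 1))
    (T : Fin (K + 1) → Tape Sy) (out : List S) : Cfg (mac M K D) := ⟨some (cl M p, some (some r)), T, out⟩

theorem ret_run (p : ℕ) (r : Fin (K + 1)) (c : ℕ → Sy) (h0 : c 0 = some none)
    (h1 : ∀ i, 0 < i → c i ≠ some none) (s : ℕ) (hw : ∀ j, s ≤ j → c j = none) (out : List S) :
    ∀ (h : ℕ) (T : Fin (K + 1) → Tape Sy), T r = ⟨c, h⟩ → h < s → spT s T →
      Run s (h + 1) (rt D M p r T out) (hm D M p (Function.update T r ⟨c, 0⟩) out) := by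
  intro h
  induction h with
  | zero =>
    intro T hT hs hsp
    have hT' : Function.update T r ⟨c, 0⟩ = T := by
      rw [← hT, Function.update_eq_self]
    rw [hT', zero_add]
    refine Run.one hsp ?_
    have := step_idle (M := M) (D := D) (some (cl M p, some (some r))) T out (some (cl M p, none))
      none (by simp [dl, hT, h0])
    simpa using this
  | succ h ih =>
    intro T hT hs hsp
    have hstep := step_act1 (M := M) (D := D) (some (cl M p, some (some r))) T out
      (some (cl M p, some (some r))) r (c (h + 1)) .left (by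
        simp [dl, hT, h1 (h + 1) (by omega)])
    rw [hT] at hstep
    simp only [Function.update_eq_self, Dir.move, Nat.add_sub_cancel] at hstep
    have hsp' : spT s (Function.update T r ⟨c, h⟩) := hsp.upd ⟨by simp only; omega, hw⟩
    have := ih (Function.update T r ⟨c, h⟩) (by rw [Function.update_self]) (by omega) hsp'
    rw [Function.update_idem] at this
    exact Run.cons hsp hstep this

theorem scan_inc {p r : ℕ} (hD : D p = .inl (.inc r)) (hp : p ≤ M) (s : ℕ) (out : List S) :
    ∀ (l : List Bool) (q : List Sy) (T : Fin (K + 1) → Tape Sy),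
      T (cl K r) = ⟨enc (q ++ l.map dg), q.length⟩ → q.length + l.length + 2 ≤ s → spT s T →
      ∃ t h, Run s t (sc D M p T out) (rt D M (p + 1) (cl K r)
        (Function.update T (cl K r) ⟨enc (q ++ (incL l).map dg), h⟩) out) ∧ h < s := by
  intro l
  induction l with
  | nil =>
    intro q T hT hs hsp
    refine ⟨1, q.length, ?_, by simp at hs; omega⟩
    refine Run.one hsp ?_
    have hstep := step_act1 (M := M) (D := D) (some (cl M p, some none)) T out
      (some (cl M (p + 1), some (some (cl K r)))) (cl K r) (dg true) .stay (by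
        simp [dl, hT, cl_val hp, hD, enc_end, dg])
    rw [hT] at hstep
    simp only [List.map_nil, List.append_nil, enc_upd', Dir.move] at hstep
    simpa [incL] using hstep
  | cons b l ih =>
    intro q T hT hs hsp
    cases b with
    | false =>
      refine ⟨1, q.length, ?_, by simp at hs; omega⟩
      refine Run.one hsp ?_
      have hstep := step_act1 (M := M) (D := D) (some (cl M p, some none)) T out
        (some (cl M (p + 1), some (some (cl K r)))) (cl K r) (dg true) .stay (by
          simp [dl, hT, cl_val hp, hD, enc_at, dg])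
      rw [hT] at hstep
      simp only [List.map_cons, enc_upd, Dir.move] at hstep
      simpa [incL] using hstep
    | true =>
      have hstep := step_act1 (M := M) (D := D) (some (cl M p, some none)) T out
        (some (cl M p, some none)) (cl K r) (dg false) .right (by
          simp [dl, hT, cl_val hp, hD, enc_at, dg])
      rw [hT] at hstep
      simp only [List.map_cons, enc_upd, Dir.move] at hstep
      have e1 : q ++ dg false :: l.map dg = (q ++ [dg false]) ++ l.map dg := by simp
      simp only [List.length_cons] at hs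
      have hsp' : spT s (Function.update T (cl K r) ⟨enc (q ++ dg false :: l.map dg),
          q.length + 1⟩) := hsp.upd (within_enc (by omega) (by simp; omega))
      obtain ⟨t, h, hr, hh⟩ := ih (q ++ [dg false]) (Function.update T (cl K r)
        ⟨enc (q ++ dg false :: l.map dg), q.length + 1⟩) (by
          rw [Function.update_self, e1]; simp) (by simp; omega) hsp'
      rw [Function.update_idem] at hr
      refine ⟨t + 1, h, Run.cons hsp hstep ?_, hh⟩
      simpa [incL] using hr

theorem scan_dec {p r : ℕ} (hD : D p = .inl (.dec r)) (hp : p ≤ M) (s : ℕ) (out : List S) :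
    ∀ (l : List Bool) (q : List Sy) (T : Fin (K + 1) → Tape Sy), vl l ≠ 0 →
      T (cl K r) = ⟨enc (q ++ l.map dg), q.length⟩ → q.length + l.length + 2 ≤ s → spT s T →
      ∃ t h, Run s t (sc D M p T out) (rt D M (p + 1) (cl K r)
        (Function.update T (cl K r) ⟨enc (q ++ (decL l).map dg), h⟩) out) ∧ h < s := by
  intro l
  induction l with
  | nil =>
    intro q T hl
    exact absurd rfl hl
  | cons b l ih =>
    intro q T hl hT hs hsp
    cases b with
    | true =>
      refine ⟨1, q.length, ?_, by simp at hs; omega⟩
      refine Run.one hsp ?_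
      have hstep := step_act1 (M := M) (D := D) (some (cl M p, some none)) T out
        (some (cl M (p + 1), some (some (cl K r)))) (cl K r) (dg false) .stay (by
          simp [dl, hT, cl_val hp, hD, enc_at, dg])
      rw [hT] at hstep
      simp only [List.map_cons, enc_upd, Dir.move] at hstep
      simpa [decL] using hstep
    | false =>
      have hstep := step_act1 (M := M) (D := D) (some (cl M p, some none)) T out
        (some (cl M p, some none)) (cl K r) (dg true) .right (by
          simp [dl, hT, cl_val hp, hD, enc_at, dg])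
      rw [hT] at hstep
      simp only [List.map_cons, enc_upd, Dir.move] at hstep
      have e1 : q ++ dg true :: l.map dg = (q ++ [dg true]) ++ l.map dg := by simp
      simp only [List.length_cons] at hs
      have hsp' : spT s (Function.update T (cl K r) ⟨enc (q ++ dg true :: l.map dg),
          q.length + 1⟩) := hsp.upd (within_enc (by omega) (by simp; omega))
      have hl' : vl l ≠ 0 := by
        intro h
        apply hl
        simp [vl, h]
      obtain ⟨t, h, hr, hh⟩ := ih (q ++ [dg true]) (Function.update T (cl K r)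
        ⟨enc (q ++ dg true :: l.map dg), q.length + 1⟩) hl' (by
          rw [Function.update_self, e1]; simp) (by simp; omega) hsp'
      rw [Function.update_idem] at hr
      refine ⟨t + 1, h, Run.cons hsp hstep ?_, hh⟩
      simpa [decL] using hr

theorem scan_jz {p r a : ℕ} (hD : D p = .inl (.jz r a)) (hp : p ≤ M) (s : ℕ) (out : List S) :
    ∀ (l : List Bool) (q : List Sy) (T : Fin (K + 1) → Tape Sy),
      T (cl K r) = ⟨enc (q ++ l.map dg), q.length⟩ → q.length + l.length + 2 ≤ s → spT s T →
      ∃ t h, Run s t (sc D M p T out) (rt D M (if vl l = 0 then a else p + 1) (cl K r)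
        (Function.update T (cl K r) ⟨enc (q ++ l.map dg), h⟩) out) ∧ h < s := by
  intro l
  induction l with
  | nil =>
    intro q T hT hs hsp
    refine ⟨1, q.length, ?_, by simp at hs; omega⟩
    refine Run.one hsp ?_
    have hstep := step_idle (M := M) (D := D) (some (cl M p, some none)) T out
      (some (cl M a, some (some (cl K r)))) none (by
        simp [dl, hT, cl_val hp, hD, enc_end, dg])
    have hT' : Function.update T (cl K r) ⟨enc (q ++ ([] : List Bool).map dg), q.length⟩ = T := by
      rw [← hT, Function.update_eq_self]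
    rw [hT', hstep]
    simp [vl]
  | cons b l ih =>
    intro q T hT hs hsp
    cases b with
    | true =>
      refine ⟨1, q.length, ?_, by simp at hs; omega⟩
      refine Run.one hsp ?_
      have hstep := step_idle (M := M) (D := D) (some (cl M p, some none)) T out
        (some (cl M (p + 1), some (some (cl K r)))) none (by
          simp [dl, hT, cl_val hp, hD, enc_at, dg])
      have hT' : Function.update T (cl K r) ⟨enc (q ++ (true :: l).map dg), q.length⟩ = T := by
        rw [← hT, Function.update_eq_self]
      rw [hT', hstep]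
      simp [vl]
    | false =>
      have hstep := step_act1 (M := M) (D := D) (some (cl M p, some none)) T out
        (some (cl M p, some none)) (cl K r) (dg false) .right (by
          simp [dl, hT, cl_val hp, hD, enc_at, dg])
      rw [hT] at hstep
      simp only [List.map_cons, enc_upd, Dir.move] at hstep
      have e1 : q ++ dg false :: l.map dg = (q ++ [dg false]) ++ l.map dg := by simp
      simp only [List.length_cons] at hs
      have hsp' : spT s (Function.update T (cl K r) ⟨enc (q ++ dg false :: l.map dg),
          q.length + 1⟩) := hsp.upd (within_enc (by omega) (by simp; omega))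
      obtain ⟨t, h, hr, hh⟩ := ih (q ++ [dg false]) (Function.update T (cl K r)
        ⟨enc (q ++ dg false :: l.map dg), q.length + 1⟩) (by
          rw [Function.update_self, e1]; simp) (by simp; omega) hsp'
      rw [Function.update_idem] at hr
      refine ⟨t + 1, h, Run.cons hsp hstep ?_, hh⟩
      simpa [vl] using hr

/-! ### registers on tapes -/

/-- the tapes hold the registers, in at most `B` digits -/
def Rep (B : ℕ) (σ : ℕ → ℕ) (T : Fin (K + 1) → Tape Sy) : Prop :=
  ∀ i : Fin (K + 1), ∃ l : List Bool, vl l = σ i ∧ l.length ≤ B ∧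
    T i = ⟨enc (some none :: l.map dg), 0⟩

theorem Rep.sp {B : ℕ} {σ : ℕ → ℕ} {T : Fin (K + 1) → Tape Sy} (h : Rep B σ T) : spT (B + 4) T := by
  intro i
  obtain ⟨l, -, h2, h3⟩ := h i
  rw [h3]
  exact within_enc (by omega) (by simp; omega)

theorem Rep.upd {B : ℕ} {σ : ℕ → ℕ} {T : Fin (K + 1) → Tape Sy} (h : Rep B σ T) {r v : ℕ}
    (hr : r ≤ K) {l : List Bool} (hv : vl l = v) (hl : l.length ≤ B) :
    Rep B (Function.update σ r v)
      (Function.update T (cl K r) ⟨enc (some none :: l.map dg), 0⟩) := by
  intro i
  by_cases hi : i = cl K r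
  · subst hi
    refine ⟨l, ?_, hl, by rw [Function.update_self]⟩
    rw [cl_val hr, Function.update_self, hv]
  · rw [Function.update_of_ne hi, Function.update_of_ne]
    · exact h i
    · intro h1
      apply hi
      apply Fin.ext
      rw [cl_val hr, h1]

theorem enc_ne_mark (l : List Bool) (i : ℕ) (hi : 0 < i) :
    enc (some none :: l.map dg) i ≠ some none := by
  obtain ⟨j, rfl⟩ : ∃ j, i = j + 1 := ⟨i - 1, by omega⟩
  simp only [enc, List.getD_eq_getElem?_getD, List.getElem?_cons_succ]
  rcases lt_or_ge j (l.map dg).length with h | h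
  · rw [List.getElem?_eq_getElem h]
    simp [dg]
  · rw [List.getElem?_eq_none h]
    simp

theorem enc_blank (l : List Bool) {s : ℕ} (hs : l.length + 1 ≤ s) (j : ℕ) (hj : s ≤ j) :
    enc (some none :: l.map dg) j = none :=
  (within_enc (q := some none :: l.map dg) (h := 0) (s := s) (by omega) (by simpa using hs)).2 j hj

theorem go_scan {p r : ℕ} {T : Fin (K + 1) → Tape Sy} (out : List S)
    (hd : ∀ y : Fin (K + 1) → Sy, dl M K D (some (cl M p, none)) y =
      (some (cl M p, some none), act1 (cl K r) y (y (cl K r)) .right, none)) (l : List Bool)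
    (hT : T (cl K r) = ⟨enc (some none :: l.map dg), 0⟩) :
    (mac M K D).step (hm D M p T out) = sc D M p (Function.update T (cl K r)
      ⟨enc ([some none] ++ l.map dg), [(some none : Sy)].length⟩) out := by
  have := step_act1 (M := M) (D := D) (some (cl M p, none)) T out
    (some (cl M p, some none)) (cl K r) ((T (cl K r)).cell (T (cl K r)).head) .right (hd _)
  rw [Function.update_eq_self, hT] at this
  exact this

theorem run_inc {B p r : ℕ} {σ : ℕ → ℕ} {T : Fin (K + 1) → Tape Sy} (out : List S)
    (hD : D p = .inl (.inc r)) (hp : p ≤ M) (hr : r ≤ K) (h : Rep B σ T)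
    (hB : σ r + 1 < 2 ^ B) :
    ∃ t T', Run (B + 4) t (hm D M p T out) (hm D M (p + 1) T' out) ∧
      Rep B (Function.update σ r (σ r + 1)) T' := by
  obtain ⟨l, h1, h2, h3⟩ := h (cl K r)
  rw [cl_val hr] at h1
  have hs1 := go_scan (M := M) (D := D) (p := p) out (fun y => by simp [dl, cl_val hp, hD]) l h3
  have hw1 : spT (B + 4) (Function.update T (cl K r)
      ⟨enc ([some none] ++ l.map dg), [(some none : Sy)].length⟩) :=
    h.sp.upd (within_enc (by simp) (by simp; omega))
  obtain ⟨t, h', hs2, hh⟩ := scan_inc hD hp (B + 4) out l [some none] (Function.update T (cl K r)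
      ⟨enc ([some none] ++ l.map dg), [(some none : Sy)].length⟩)
    (by rw [Function.update_self]) (by simp; omega) hw1
  rw [Function.update_idem] at hs2
  have hl : (incL l).length ≤ B := length_incL l B h2 (by rw [h1]; exact hB)
  have hs3 := ret_run (M := M) (D := D) (p + 1) (cl K r) (enc (some none :: (incL l).map dg)) rfl
    (enc_ne_mark _) (B + 4) (enc_blank _ (by omega)) out h'
    (Function.update T (cl K r) ⟨enc (some none :: (incL l).map dg), h'⟩)
    (by rw [Function.update_self]) hh (h.sp.upd (within_enc hh (by simp; omega)))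
  rw [Function.update_idem] at hs3
  exact ⟨_, _, Run.cons h.sp hs1 (hs2.trans hs3), h.upd hr (by rw [vl_incL, h1]) hl⟩

theorem run_dec {B p r : ℕ} {σ : ℕ → ℕ} {T : Fin (K + 1) → Tape Sy} (out : List S)
    (hD : D p = .inl (.dec r)) (hp : p ≤ M) (hr : r ≤ K) (h : Rep B σ T) (hB : σ r ≠ 0) :
    ∃ t T', Run (B + 4) t (hm D M p T out) (hm D M (p + 1) T' out) ∧
      Rep B (Function.update σ r (σ r - 1)) T' := by
  obtain ⟨l, h1, h2, h3⟩ := h (cl K r)
  rw [cl_val hr] at h1
  have hs1 := go_scan (M := M) (D := D) (p := p) out (fun y => by simp [dl, cl_val hp, hD]) l h3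
  have hw1 : spT (B + 4) (Function.update T (cl K r)
      ⟨enc ([some none] ++ l.map dg), [(some none : Sy)].length⟩) :=
    h.sp.upd (within_enc (by simp) (by simp; omega))
  obtain ⟨t, h', hs2, hh⟩ := scan_dec hD hp (B + 4) out l [some none] (Function.update T (cl K r)
      ⟨enc ([some none] ++ l.map dg), [(some none : Sy)].length⟩) (by rw [h1]; exact hB)
    (by rw [Function.update_self]) (by simp; omega) hw1
  rw [Function.update_idem] at hs2
  have hl : (decL l).length ≤ B := by rw [length_decL]; exact h2
  have hs3 := ret_run (M := M) (D := D) (p + 1) (cl K r) (enc (some none :: (decL l).map dg)) rfl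
    (enc_ne_mark _) (B + 4) (enc_blank _ (by omega)) out h'
    (Function.update T (cl K r) ⟨enc (some none :: (decL l).map dg), h'⟩)
    (by rw [Function.update_self]) hh (h.sp.upd (within_enc hh (by simp; omega)))
  rw [Function.update_idem] at hs3
  exact ⟨_, _, Run.cons h.sp hs1 (hs2.trans hs3),
    h.upd hr (by rw [vl_decL l (by rw [h1]; exact hB), h1]) hl⟩

theorem run_jz {B p r a : ℕ} {σ : ℕ → ℕ} {T : Fin (K + 1) → Tape Sy} (out : List S)
    (hD : D p = .inl (.jz r a)) (hp : p ≤ M) (hr : r ≤ K) (h : Rep B σ T) :
    ∃ t T', Run (B + 4) t (hm D M p T out) (hm D M (if σ r = 0 then a else p + 1) T' out) ∧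
      Rep B σ T' := by
  obtain ⟨l, h1, h2, h3⟩ := h (cl K r)
  rw [cl_val hr] at h1
  have hs1 := go_scan (M := M) (D := D) (p := p) out (fun y => by simp [dl, cl_val hp, hD]) l h3
  have hw1 : spT (B + 4) (Function.update T (cl K r)
      ⟨enc ([some none] ++ l.map dg), [(some none : Sy)].length⟩) :=
    h.sp.upd (within_enc (by simp) (by simp; omega))
  obtain ⟨t, h', hs2, hh⟩ := scan_jz hD hp (B + 4) out l [some none] (Function.update T (cl K r)
      ⟨enc ([some none] ++ l.map dg), [(some none : Sy)].length⟩)
    (by rw [Function.update_self]) (by simp; omega) hw1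
  rw [Function.update_idem, h1] at hs2
  have hs3 := ret_run (M := M) (D := D) (if σ r = 0 then a else p + 1) (cl K r)
    (enc (some none :: l.map dg)) rfl
    (enc_ne_mark _) (B + 4) (enc_blank _ (by omega)) out h'
    (Function.update T (cl K r) ⟨enc (some none :: l.map dg), h'⟩)
    (by rw [Function.update_self]) hh (h.sp.upd (within_enc hh (by simp; omega)))
  rw [Function.update_idem] at hs3
  have h5 := h.upd hr h1 h2
  rw [Function.update_eq_self] at h5
  exact ⟨_, _, Run.cons h.sp hs1 (hs2.trans hs3), h5⟩

theorem run_jmp {B p a : ℕ} {σ : ℕ → ℕ} {T : Fin (K + 1) → Tape Sy} (out : List S)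
    (hD : D p = .inl (.jmp a)) (hp : p ≤ M) (h : Rep B σ T) :
    Run (B + 4) 1 (hm D M p T out) (hm D M a T out) := by
  refine Run.one h.sp ?_
  have := step_idle (M := M) (D := D) (some (cl M p, none)) T out (some (cl M a, none)) none
    (by simp [dl, cl_val hp, hD])
  simpa using this

theorem run_emit {B p : ℕ} {o : Option S} {σ : ℕ → ℕ} {T : Fin (K + 1) → Tape Sy} (out : List S)
    (hD : D p = .inr o) (hp : p ≤ M) (h : Rep B σ T) :
    Run (B + 4) 1 (hm D M p T out) (hm D M (p + 1) T (out ++ o.toList)) := by
  refine Run.one h.sp ?_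
  exact step_idle (M := M) (D := D) (some (cl M p, none)) T out (some (cl M (p + 1), none)) o
    (by simp [dl, cl_val hp, hD])

/-! ### programs -/

/-- the code `l` sits at address `a` -/
def AtD (D : ℕ → Ins ⊕ Option S) (K a : ℕ) (l : List Ins) : Prop :=
  ∀ i (h : i < l.length), D (a + i) = .inl l[i] ∧ (l[i]).reg ≤ K

theorem AtD.left {a : ℕ} {c d : List Ins} (h : AtD D K a (c ++ d)) : AtD D K a c := by
  intro i hi
  have := h i (by simp; omega)
  rwa [List.getElem_append_left hi] at this

theorem AtD.right {a : ℕ} {c d : List Ins} (h : AtD D K a (c ++ d)) :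
    AtD D K (a + c.length) d := by
  intro i hi
  have := h (c.length + i) (by simp; omega)
  rw [← add_assoc] at this
  rw [List.getElem_append_right (by omega)] at this
  simpa using this

theorem AtD.head {a : ℕ} {x : Ins} {d : List Ins} (h : AtD D K a (x :: d)) :
    D a = .inl x ∧ x.reg ≤ K := by
  have := h 0 (by simp)
  simpa using this

theorem AtD.tail {a : ℕ} {x : Ins} {d : List Ins} (h : AtD D K a (x :: d)) :
    AtD D K (a + 1) d := by
  intro i hi
  have := h (i + 1) (by simp; omega)
  rw [show a + 1 + i = a + (i + 1) by omega]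
  simpa using this

/-- **Soundness of the simulation.** -/
theorem sound {N B : ℕ} (hN : N < 2 ^ B) {p : Prg} {σ τ : ℕ → ℕ} (h : H539R2.Run N p σ τ) :
    ∀ (a : ℕ) (T : Fin (K + 1) → Tape Sy) (out : List S), AtD D K a (comp p a) →
      a + (comp p a).length ≤ M → Rep B σ T →
      ∃ t T', Run (B + 4) t (hm D M a T out) (hm D M (a + (comp p a).length) T' out) ∧
        Rep B τ T' := by
  induction h with
  | skip σ =>
    intro a T out _ _ hR
    exact ⟨0, T, by simpa [comp] using Run.refl _ _, hR⟩
  | inc r σ h =>
    intro a T out hA hM hR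
    simp only [comp] at hA hM ⊢
    obtain ⟨h1, h2⟩ := hA.head
    simp only [List.length_cons, List.length_nil] at hM ⊢
    exact run_inc out h1 (by omega) h2 hR (by omega)
  | dec r σ h =>
    intro a T out hA hM hR
    simp only [comp] at hA hM ⊢
    obtain ⟨h1, h2⟩ := hA.head
    simp only [List.length_cons, List.length_nil] at hM ⊢
    exact run_dec out h1 (by omega) h2 hR h
  | @seq p q σ σ' σ'' _ _ ih1 ih2 =>
    intro a T out hA hM hR
    simp only [comp, List.length_append] at hA hM ⊢
    obtain ⟨t1, T1, h1, hR1⟩ := ih1 a T out hA.left (by omega) hR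
    obtain ⟨t2, T2, h2, hR2⟩ := ih2 (a + (comp p a).length) T1 out hA.right (by omega) hR1
    refine ⟨t1 + t2, T2, ?_, hR2⟩
    rw [← add_assoc]
    exact h1.trans h2
  | @whz r p σ h =>
    intro a T out hA hM hR
    simp only [comp, List.length_cons, List.length_append, List.length_nil] at hA hM ⊢
    obtain ⟨h1, h2⟩ := hA.head
    obtain ⟨t1, T1, h3, hR1⟩ := run_jz (M := M) (D := D) (p := a) out h1 (by omega) h2 hR
    rw [if_pos h] at h3
    have e : a + (comp p (a + 1)).length + 2 = a + ((comp p (a + 1)).length + (0 + 1) + 1) := by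
      omega
    rw [e] at h3
    exact ⟨t1, T1, h3, hR1⟩
  | @whs r p σ σ' σ'' h _ _ ih1 ih2 =>
    intro a T out hA hM hR
    have hA' := hA
    have hM' := hM
    simp only [comp, List.length_cons, List.length_append, List.length_nil] at hA hM
    obtain ⟨h1, h2⟩ := hA.head
    obtain ⟨t1, T1, h3, hR1⟩ := run_jz (M := M) (D := D) (p := a) out h1 (by omega) h2 hR
    rw [if_neg h] at h3
    obtain ⟨t2, T2, h4, hR2⟩ := ih1 (a + 1) T1 out hA.tail.left (by omega) hR1
    have h5 := run_jmp (M := M) (B := B) out hA.tail.right.head.1 (by omega) hR2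
    obtain ⟨t3, T3, h6, hR3⟩ := ih2 a T2 out hA' hM' hR2
    exact ⟨_, T3, h3.trans (h4.trans (h5.trans h6)), hR3⟩

end Pool.Agent.TH751.RM
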