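import Pool.Agent.TH381.RM.Defs
import Pool.Agent.TH751.RM.Ins

/-!
Words generated by iterating functions computed in linear space.
-/

set_option autoImplicit false

namespace Pool.Agent.TH751.RM

open Pool.Agent.H584R2.Dg Pool.Agent.W614.Dg
open Pool.Agent.H539R2 (Prg Ins comp LS clr mv run_clr run_mv exists_reg_bound)

variable {S : Type}

/-- the registers `(z, 0, 0, ...)` -/
def reg (z : ℕ) : ℕ → ℕ := Function.update (fun _ => 0) 0 z

theorem reg_zero (z : ℕ) : reg z 0 = z := by simp [reg]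

theorem reg_ne (z : ℕ) {i : ℕ} (hi : i ≠ 0) : reg z i = 0 := by simp [reg, hi]

/-- the code -/
def code (A0 A1 A2 A3 : ℕ) (l1 l2 : List Ins) (e : ℕ → Option S) : ℕ → Ins ⊕ Option S := fun n =>
  if n < A0 then .inl (.inc 0)
  else if n < A1 then .inl (l1.getD (n - A0) (.jmp 0))
  else if n < A2 then (if (n - A1) % 2 = 0 then .inl (.jz 1 (A2 + (n - A1))) else .inl (.dec 1))
  else if n < A3 then (if (n - A2) % 2 = 0 then .inr (e ((n - A2) / 2)) else .inl (.jmp A3))
  else if n < A3 + l2.length then .inl (l2.getD (n - A3) (.jmp 0))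
  else .inl (.jmp A0)

/-- The code has the right form. -/
structure Good (D : ℕ → Ins ⊕ Option S) (A0 A1 A2 A3 A4 K N : ℕ) (l1 l2 : List Ins)
    (e : ℕ → Option S) : Prop where
  h1 : A1 = A0 + l1.length
  h2 : A2 = A1 + 2 * (N + 1)
  h3 : A3 = A2 + 2 * (N + 1)
  h4 : A4 = A3 + l2.length
  hK : 1 ≤ K
  d0 : ∀ n, n < A0 → D n = .inl (.inc 0)
  d1 : AtD D K A0 l1
  d2 : ∀ c, c ≤ N → D (A1 + 2 * c) = .inl (.jz 1 (A2 + 2 * c))
  d2' : ∀ c, c ≤ N → D (A1 + 2 * c + 1) = .inl (.dec 1)
  d3 : ∀ c, c ≤ N → D (A2 + 2 * c) = .inr (e c)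
  d3' : ∀ c, c ≤ N → D (A2 + 2 * c + 1) = .inl (.jmp A3)
  d4 : AtD D K A3 l2
  d5 : D A4 = .inl (.jmp A0)

theorem good_code (A0 K N : ℕ) (l1 l2 : List Ins) (e : ℕ → Option S) (hK : 1 ≤ K)
    (hl1 : ∀ x ∈ l1, x.reg ≤ K) (hl2 : ∀ x ∈ l2, x.reg ≤ K) {A1 A2 A3 A4 : ℕ}
    (h1 : A1 = A0 + l1.length) (h2 : A2 = A1 + 2 * (N + 1)) (h3 : A3 = A2 + 2 * (N + 1))
    (h4 : A4 = A3 + l2.length) :
    Good (code A0 A1 A2 A3 l1 l2 e) A0 A1 A2 A3 A4 K N l1 l2 e := by
  refine ⟨h1, h2, h3, h4, hK, ?_, ?_, ?_, ?_, ?_, ?_, ?_, ?_⟩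
  · intro n hn
    simp only [code]
    rw [if_pos hn]
  · intro i hi
    refine ⟨?_, hl1 _ (List.getElem_mem hi)⟩
    simp only [code]
    rw [if_neg (by omega), if_pos (by omega), Nat.add_sub_cancel_left]
    congr 1
    simp [List.getD_eq_getElem?_getD, hi]
  · intro c hc
    simp only [code]
    rw [if_neg (by omega), if_neg (by omega), if_pos (by omega), if_pos (by omega)]
    congr 2
    omega
  · intro c hc
    simp only [code]
    rw [if_neg (by omega), if_neg (by omega), if_pos (by omega), if_neg (by omega)]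
  · intro c hc
    simp only [code]
    rw [if_neg (by omega), if_neg (by omega), if_neg (by omega), if_pos (by omega),
      if_pos (by omega)]
    congr 2
    omega
  · intro c hc
    simp only [code]
    rw [if_neg (by omega), if_neg (by omega), if_neg (by omega), if_pos (by omega),
      if_neg (by omega)]
  · intro i hi
    refine ⟨?_, hl2 _ (List.getElem_mem hi)⟩
    simp only [code]
    rw [if_neg (by omega), if_neg (by omega), if_neg (by omega), if_neg (by omega),
      if_pos (by omega), Nat.add_sub_cancel_left]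
    congr 1
    simp [List.getD_eq_getElem?_getD, hi]
  · simp only [code]
    rw [if_neg (by omega), if_neg (by omega), if_neg (by omega), if_neg (by omega),
      if_neg (by omega)]

variable {K N A0 A1 A2 A3 A4 : ℕ} {D : ℕ → Ins ⊕ Option S} {l1 l2 : List Ins}
  {e : ℕ → Option S}

/-- branching on the value of the register `1` -/
theorem chain (hG : Good D A0 A1 A2 A3 A4 K N l1 l2 e) {B : ℕ} (out : List S) :
    ∀ (v c : ℕ) (σ : ℕ → ℕ) (T : Fin (K + 1) → Tape Sy), σ 1 = v → c + v ≤ N → Rep B σ T →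
      ∃ t T', Run (B + 4) t (hm D A4 (A1 + 2 * c) T out) (hm D A4 (A2 + 2 * (c + v)) T' out) ∧
        Rep B (Function.update σ 1 0) T' := by
  have e2 := hG.h2
  have e3 := hG.h3
  have e4 := hG.h4
  intro v
  induction v with
  | zero =>
    intro c σ T hσ hc hR
    obtain ⟨t, T', h1, h2⟩ := run_jz (M := A4) out (hG.d2 c (by omega)) (by omega) hG.hK hR
    rw [if_pos hσ] at h1
    refine ⟨t, T', h1, ?_⟩
    have : Function.update σ 1 0 = σ := by rw [← hσ, Function.update_eq_self]
    rw [this]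
    exact h2
  | succ v ih =>
    intro c σ T hσ hc hR
    obtain ⟨t, T1, h1, h2⟩ := run_jz (M := A4) out (hG.d2 c (by omega)) (by omega) hG.hK hR
    rw [if_neg (by omega)] at h1
    obtain ⟨t2, T2, h3, h4⟩ := run_dec (M := A4) out (hG.d2' c (by omega)) (by omega) hG.hK h2
      (by omega)
    obtain ⟨t3, T3, h5, h6⟩ := ih (c + 1) (Function.update σ 1 (σ 1 - 1)) T2
      (by rw [Function.update_self]; omega) (by omega) h4
    rw [Function.update_idem] at h6
    rw [show A1 + 2 * (c + 1) = A1 + 2 * c + 1 + 1 by ring,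
      show c + 1 + v = c + (v + 1) by ring] at h5
    exact ⟨_, T3, h1.trans (h3.trans h5), h6⟩

/-- one period -/
theorem period (PL PF : Prg) (hG : Good D A0 A1 A2 A3 A4 K N (comp PL A0) (comp PF A3) e)
    {B W z v z' : ℕ} (hW : W < 2 ^ B) (hv : v ≤ N)
    (hL : H539R2.Run W PL (reg z) (Function.update (reg z) 1 v))
    (hF : H539R2.Run W PF (reg z) (reg z')) (T : Fin (K + 1) → Tape Sy) (out : List S)
    (hR : Rep B (reg z) T) :
    ∃ t T', 1 ≤ t ∧ Run (B + 4) t (hm D A4 A0 T out) (hm D A4 A0 T' (out ++ (e v).toList)) ∧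
      Rep B (reg z') T' := by
  have e1 := hG.h1
  have e2 := hG.h2
  have e3 := hG.h3
  have e4 := hG.h4
  obtain ⟨t1, T1, h1, r1⟩ := sound (M := A4) hW hL A0 T out hG.d1 (by omega) hR
  rw [← e1] at h1
  obtain ⟨t2, T2, h2, r2⟩ := chain hG out v 0 _ T1 (by rw [Function.update_self]) (by omega) r1
  rw [Function.update_idem] at r2
  have hz : Function.update (reg z) 1 0 = reg z := by
    have := reg_ne z (i := 1) (by omega)
    rw [← this, Function.update_eq_self]
  rw [hz] at r2
  rw [mul_zero, add_zero, zero_add] at h2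
  have h3 := run_emit (M := A4) out (hG.d3 v hv) (by omega) r2
  have h4 := run_jmp (M := A4) (out ++ (e v).toList) (hG.d3' v hv) (by omega) r2
  obtain ⟨t5, T5, h5, r5⟩ := sound (M := A4) hW hF A3 T2 (out ++ (e v).toList) hG.d4 (by omega) r2
  rw [← e4] at h5
  have h6 := run_jmp (M := A4) (out ++ (e v).toList) hG.d5 le_rfl r5
  exact ⟨_, T5, by omega, h1.trans (h2.trans (h3.trans (h4.trans (h5.trans h6)))), r5⟩

/-- the start -/
theorem run_start (hG : Good D A0 A1 A2 A3 A4 K N l1 l2 e) {B : ℕ} (hB : A0 < 2 ^ B) :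
    ∃ t T, Run (B + 4) t (mac A4 K D).init (hm D A4 A0 T []) ∧ Rep B (reg A0) T := by
  have e1 := hG.h1
  have e2 := hG.h2
  have e3 := hG.h3
  have e4 := hG.h4
  have h0 : enc [] = fun _ => (none : Sy) := by
    funext i
    simp [enc]
  have h1 : (Function.update (fun _ => (none : Sy)) 0 (some none)) = enc [some none] := by
    have := enc_upd' [] (some none)
    rw [h0] at this
    simpa using this
  have key : ∀ n, n ≤ A0 → ∃ t T, Run (B + 4) t (mac A4 K D).init (hm D A4 n T []) ∧
      Rep B (reg n) T := by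
    intro n
    induction n with
    | zero =>
      intro _
      refine ⟨1, fun _ => ⟨enc [some none], 0⟩, ?_, ?_⟩
      · refine Run.one ?_ ?_
        · intro i
          refine ⟨by simp [Machine.init], fun j _ => rfl⟩
        · unfold Machine.step Machine.init
          simp only [dl, h1, Dir.move, Option.toList_none, List.append_nil]
      · intro i
        refine ⟨[], ?_, by simp, by simp⟩
        simp only [vl, reg]
        rcases Nat.eq_zero_or_pos (i : ℕ) with h | h
        · rw [h]; simp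
        · rw [Function.update_of_ne (by omega)]
    | succ n ih =>
      intro hn
      obtain ⟨t, T, h2, h3⟩ := ih (by omega)
      obtain ⟨t', T', h4, h5⟩ := run_inc (M := A4) [] (hG.d0 n (by omega)) (by omega)
        (Nat.zero_le _) h3 (by rw [reg_zero]; omega)
      refine ⟨_, T', h2.trans h4, ?_⟩
      have : Function.update (reg n) 0 (reg n 0 + 1) = reg (n + 1) := by
        rw [reg_zero]
        simp only [reg, Function.update_idem]
      rwa [this] at h5
  exact key A0 le_rfl

/-- all periods -/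
theorem run_all (PL PF : Prg) (hG : Good D A0 A1 A2 A3 A4 K N (comp PL A0) (comp PF A3) e)
    (F L : ℕ → ℕ) (c : ℕ) (hL : ∀ z, L z ≤ N)
    (hPL : ∀ z, H539R2.Run ((z + 2) ^ (c + 1)) PL (reg z) (Function.update (reg z) 1 (L z)))
    (hPF : ∀ z, H539R2.Run ((z + 2) ^ (c + 1)) PF (reg z) (reg (F z))) (B : ℕ) (hB : A0 < 2 ^ B) :
    ∀ J : ℕ, (∀ i, i < J → (F^[i] A0 + 2) ^ (c + 1) < 2 ^ B) →
      ∃ t T, J ≤ t ∧ Run (B + 4) t (mac A4 K D).init
        (hm D A4 A0 T ((List.range J).filterMap fun i => e (L (F^[i] A0)))) ∧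
        Rep B (reg (F^[J] A0)) T := by
  intro J
  induction J with
  | zero =>
    intro _
    obtain ⟨t, T, h1, h2⟩ := run_start hG hB
    exact ⟨t, T, Nat.zero_le _, by simpa using h1, h2⟩
  | succ J ih =>
    intro hJ
    obtain ⟨t, T, h0, h1, h2⟩ := ih (fun i hi => hJ i (by omega))
    obtain ⟨t', T', h3, h4, h5⟩ := period PL PF hG (hJ J (by omega)) (hL _) (hPL _) (hPF _) T
      ((List.range J).filterMap fun i => e (L (F^[i] A0))) h2
    refine ⟨t + t', T', by omega, ?_, ?_⟩
    · have e5 : (List.range (J + 1)).filterMap (fun i => e (L (F^[i] A0))) =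
          (List.range J).filterMap (fun i => e (L (F^[i] A0))) ++ (e (L (F^[J] A0))).toList := by
        rw [List.range_succ, List.filterMap_append]
        cases h : e (L (F^[J] A0)) <;> simp [h]
      rw [e5]
      exact h1.trans h4
    · rw [Function.iterate_succ_apply']
      exact h5

theorem out_mono {k : ℕ} (M : Machine k S) (c : Cfg M) (t : ℕ) :
    c.out <+: (M.step^[t] c).out := by
  induction t with
  | zero => exact List.prefix_rfl
  | succ t ih =>
    rw [Function.iterate_succ_apply']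
    refine ih.trans ?_
    simp only [Machine.step]
    exact List.prefix_append _ _

theorem isPre_of_prefix {l l' : List S} {w : ℕ → S} (h : l <+: l') (h' : IsPre l' w) :
    IsPre l w := by
  intro i hi
  have h1 : l[i] = l'[i]'(hi.trans_le h.length_le) := h.getElem hi
  rw [h1]
  exact h' i _

/-- **GEN.** -/
theorem gen : Pool.Agent.TH381.RM.SGen := by
  intro S F L N e z0 w s hF hL hN hw hlen hs
  obtain ⟨cL, hLb, hLp⟩ := hL
  obtain ⟨cF, hFb, hFp⟩ := hF
  obtain ⟨PL, hPL⟩ := hLp (fun _ => 0) 1 2 (fun _ => by omega) (by omega) (fun _ => by omega)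
  obtain ⟨PF0, hPF0⟩ := hFp (fun _ => 0) 1 2 (fun _ => by omega) (by omega) (fun _ => by omega)
  obtain ⟨c, hc⟩ : ∃ c, c = max cL cF := ⟨_, rfl⟩
  have hXL : ∀ z, (z + 2) ^ cL ≤ (z + 2) ^ (c + 1) := fun z =>
    Nat.pow_le_pow_right (by omega) (by omega)
  have hXF : ∀ z, (z + 2) ^ cF ≤ (z + 2) ^ (c + 1) := fun z =>
    Nat.pow_le_pow_right (by omega) (by omega)
  have hPL' : ∀ z, H539R2.Run ((z + 2) ^ (c + 1)) PL (reg z)
      (Function.update (reg z) 1 (L z)) := by
    intro z
    have := hPL (z + 2) (reg z) (by omega) (fun _ => by rw [reg_zero]; omega)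
      (fun r hr => reg_ne z (by omega)) (reg_ne z (by omega))
    simp only [reg_zero] at this
    exact this.mono (hXL z)
  obtain ⟨PF, hPFd⟩ : ∃ P : Prg, P = Prg.seq PF0 (Prg.seq (clr 0) (mv 1 0)) := ⟨_, rfl⟩
  have hPF' : ∀ z, H539R2.Run ((z + 2) ^ (c + 1)) PF (reg z) (reg (F z)) := by
    intro z
    have h1 := hPF0 (z + 2) (reg z) (by omega) (fun _ => by rw [reg_zero]; omega)
      (fun r hr => reg_ne z (by omega)) (reg_ne z (by omega))
    simp only [reg_zero] at h1
    have hFz : F z ≤ (z + 2) ^ (c + 1) :=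
      (hFb (z + 2) (by omega) (fun _ => z) (fun _ => by omega)).trans (hXF z)
    have h2 := run_clr ((z + 2) ^ (c + 1)) 0 _ (Function.update (reg z) 1 (F z)) rfl
    have h3 := run_mv ((z + 2) ^ (c + 1)) 1 0 (by omega) (F z)
      (Function.update (Function.update (reg z) 1 (F z)) 0 0)
      (by rw [Function.update_of_ne (by omega), Function.update_self])
      (by rw [Function.update_self]; omega)
    have h4 : Function.update (Function.update (Function.update (Function.update (reg z) 1 (F z))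
        0 0) 1 0) 0 (Function.update (Function.update (reg z) 1 (F z)) 0 0 0 + F z) =
        reg (F z) := by
      funext x
      by_cases hx : x = 0
      · subst hx; simp [reg]
      · by_cases hx1 : x = 1
        · subst hx1; simp [reg]
        · simp [reg, hx, hx1]
    rw [h4] at h3
    rw [hPFd]
    exact H539R2.Run.seq (h1.mono (hXF z)) (H539R2.Run.seq h2 h3)
  -- the machine
  obtain ⟨A1, hA1⟩ : ∃ A1, A1 = z0 + (comp PL z0).length := ⟨_, rfl⟩
  obtain ⟨A2, hA2⟩ : ∃ A2, A2 = A1 + 2 * (N + 1) := ⟨_, rfl⟩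
  obtain ⟨A3, hA3⟩ : ∃ A3, A3 = A2 + 2 * (N + 1) := ⟨_, rfl⟩
  obtain ⟨A4, hA4⟩ : ∃ A4, A4 = A3 + (comp PF A3).length := ⟨_, rfl⟩
  obtain ⟨K1, hK1⟩ := exists_reg_bound (comp PL z0)
  obtain ⟨K2, hK2⟩ := exists_reg_bound (comp PF A3)
  obtain ⟨K, hK⟩ : ∃ K, K = K1 + K2 + 1 := ⟨_, rfl⟩
  have hG := good_code (S := S) z0 K N (comp PL z0) (comp PF A3) e (by omega)
    (fun x hx => by have := hK1 x hx; omega) (fun x hx => by have := hK2 x hx; omega)
    hA1 hA2 hA3 hA4
  obtain ⟨D, hD⟩ : ∃ D, D = code z0 A1 A2 A3 (comp PL z0) (comp PF A3) e := ⟨_, rfl⟩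
  rw [← hD] at hG
  have hall := fun B hB J hJ => run_all PL PF hG F L c hN hPL' hPF' B hB J hJ
  have hall' : ∀ J, ∃ t T, J ≤ t ∧ (mac A4 K D).conf t =
      (hm D A4 z0 T ((List.range J).filterMap fun i => e (L (F^[i] z0)))) := by
    intro J
    obtain ⟨B, hB⟩ : ∃ B, B = z0 + 1 + ∑ i ∈ Finset.range J, (F^[i] z0 + 2) ^ (c + 1) := ⟨_, rfl⟩
    have hB2 : B < 2 ^ B := Nat.lt_two_pow_self
    obtain ⟨t, T, h1, h2, -⟩ := hall B (by omega) J (by
      intro i hi
      refine lt_of_le_of_lt ?_ hB2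
      have := Finset.single_le_sum (f := fun i => (F^[i] z0 + 2) ^ (c + 1))
        (fun i _ => Nat.zero_le _) (Finset.mem_range.2 hi)
      omega)
    exact ⟨t, T, h1, h2.1⟩
  have hlog2 : 0 < Real.log 2 := Real.log_pos (by norm_num)
  refine ⟨K + 1, mac A4 K D, ((c : ℝ) + 6) / Real.log 2, ⟨?_, ?_⟩, ?_⟩
  · intro t
    obtain ⟨t', T, h1, h2⟩ := hall' t
    have h3 : ((mac A4 K D).conf t).out <+: ((mac A4 K D).conf t').out := by
      obtain ⟨d, rfl⟩ := Nat.exists_eq_add_of_le h1
      have := out_mono (mac A4 K D) ((mac A4 K D).conf t) d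
      rwa [Machine.conf, ← Function.iterate_add_apply, add_comm d t] at this
    rw [h2] at h3
    exact isPre_of_prefix h3 (hw t)
  · intro n
    obtain ⟨J, hJ⟩ := hlen n
    obtain ⟨t, T, -, h2⟩ := hall' J
    exact ⟨t, by rw [h2]; exact hJ⟩
  · intro n hn
    classical
    obtain ⟨J, hJdef⟩ : ∃ J, J = Nat.find (hlen n) := ⟨_, rfl⟩
    have hJ : n ≤ ((List.range J).filterMap (fun i => e (L (F^[i] z0)))).length := by
      rw [hJdef]; exact Nat.find_spec (hlen n)
    have hlt : ∀ i, i < J → Real.log ((F^[i] z0 : ℕ) + 2) ≤ s n := by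
      intro i hi
      apply hs n hn i
      rw [hJdef] at hi
      exact not_le.1 (Nat.find_min (hlen n) hi)
    have hJ0 : 0 < J := by
      rcases Nat.eq_zero_or_pos J with h | h
      · rw [h] at hJ
        simp at hJ
        omega
      · exact h
    have hs0 := hlt 0 hJ0
    have hs2 : Real.log 2 ≤ s n := by
      refine le_trans (Real.log_le_log (by norm_num) ?_) hs0
      have : (0 : ℝ) ≤ ((F^[0] z0 : ℕ) : ℝ) := Nat.cast_nonneg _
      linarith
    obtain ⟨B, hB⟩ : ∃ B : ℕ, B = ⌊((c : ℝ) + 1) * s n / Real.log 2⌋₊ + 1 := ⟨_, rfl⟩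
    have hsn : 0 < s n := hlog2.trans_le hs2
    have hB1 : ((c : ℝ) + 1) * s n / Real.log 2 < B := by
      rw [hB]
      push_cast
      exact Nat.lt_floor_add_one _
    have hB2 : (B : ℝ) ≤ ((c : ℝ) + 1) * s n / Real.log 2 + 1 := by
      rw [hB]
      push_cast
      have := Nat.floor_le (a := ((c : ℝ) + 1) * s n / Real.log 2) (by positivity)
      linarith
    have hpow : ∀ i, i < J → (F^[i] z0 + 2) ^ (c + 1) < 2 ^ B := by
      intro i hi
      have h1 := hlt i hi
      have h2 : (0 : ℝ) < ((F^[i] z0 : ℕ) : ℝ) + 2 := by positivity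
      have h3 : Real.log ((((F^[i] z0 : ℕ) : ℝ) + 2) ^ (c + 1)) < Real.log ((2 : ℝ) ^ B) := by
        rw [Real.log_pow, Real.log_pow]
        rw [div_lt_iff₀ hlog2] at hB1
        refine lt_of_le_of_lt ?_ hB1
        push_cast
        exact mul_le_mul_of_nonneg_left h1 (by positivity)
      have h4 := (Real.log_lt_log_iff (by positivity) (by positivity)).1 h3
      exact_mod_cast h4
    have hz0 : z0 < 2 ^ B := by
      have h1 := hpow 0 hJ0
      simp only [Function.iterate_zero, id] at h1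
      have h2 : z0 + 2 ≤ (z0 + 2) ^ (c + 1) := Nat.le_self_pow (by omega) _
      omega
    obtain ⟨t, T, -, h1, h2⟩ := hall B hz0 J hpow
    have hT : (mac A4 K D).T n ≤ t := T_le (by
      have h3 : (mac A4 K D).conf t = _ := h1.1
      rw [h3]
      exact hJ)
    have hBC : ((B + 4 : ℕ) : ℝ) ≤ ((c : ℝ) + 6) / Real.log 2 * s n := by
      push_cast
      have h3 : (1 : ℝ) ≤ s n / Real.log 2 := by
        rw [le_div_iff₀ hlog2]
        linarith
      have h4 : ((c : ℝ) + 6) / Real.log 2 * s n =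
          ((c : ℝ) + 1) * s n / Real.log 2 + 5 * (s n / Real.log 2) := by ring
      rw [h4]
      linarith
    have hSp : ∀ t', t' ≤ t → Sp (B + 4) ((mac A4 K D).conf t') := by
      intro t' ht'
      rcases ht'.lt_or_eq with h | h
      · exact h1.2 t' h
      · subst h
        have h3 : (mac A4 K D).conf t' = _ := h1.1
        rw [h3]
        exact h2.sp
    intro t' ht' i
    have h3 := hSp t' (ht'.trans hT) i
    refine ⟨?_, fun j hj => h3.2 j ?_⟩
    · have h4 : ((((mac A4 K D).conf t').tape i).head : ℝ) < ((B + 4 : ℕ) : ℝ) := by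
        exact_mod_cast h3.1
      linarith
    · have h4 := hBC.trans hj
      exact_mod_cast h4

end Pool.Agent.TH751.RM
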