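import Pool.Agent.H584R2.Dg.Tape
import Pool.Agent.H539R2.Goto

/-!
Binary counters on the tapes of a generating machine: the machine of a goto code with output
instructions. Tape `i` holds the register `i`: a mark in cell `0` and then the binary digits, the
lowest digit first.
-/

set_option autoImplicit false

namespace Pool.Agent.TH751.RM

open Pool.Agent.H584R2.Dg
open Pool.Agent.H539R2 (Prg Ins comp)

/-! ### lists of bits -/

/-- the value of a list of bits -/
def vl : List Bool → ℕ
  | [] => 0
  | b :: l => b.toNat + 2 * vl l

/-- increment -/
def incL : List Bool → List Bool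
  | [] => [true]
  | false :: l => true :: l
  | true :: l => false :: incL l

/-- decrement -/
def decL : List Bool → List Bool
  | [] => []
  | true :: l => false :: l
  | false :: l => true :: decL l

theorem vl_incL (l : List Bool) : vl (incL l) = vl l + 1 := by
  induction l with
  | nil => rfl
  | cons b l ih =>
    cases b with
    | false => simp [incL, vl]; omega
    | true => simp [incL, vl, ih]; omega

theorem vl_decL (l : List Bool) (h : vl l ≠ 0) : vl (decL l) = vl l - 1 := by
  induction l with
  | nil => exact absurd rfl h
  | cons b l ih =>
    cases b with
    | false =>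
      simp only [vl, Bool.toNat_false, zero_add] at h
      have h1 : vl l ≠ 0 := by omega
      simp only [decL, vl, ih h1, Bool.toNat_false, Bool.toNat_true]
      omega
    | true => simp [decL, vl]

theorem length_incL (l : List Bool) : ∀ B : ℕ, l.length ≤ B → vl l + 1 < 2 ^ B →
    (incL l).length ≤ B := by
  induction l with
  | nil =>
    intro B h h'
    rcases B with _ | B
    · simp [vl] at h'
    · simp [incL]
  | cons b l ih =>
    intro B h h'
    cases b with
    | false => simpa [incL] using h
    | true =>
      rcases B with _ | B
      · simp at h
      · simp only [List.length_cons] at h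
        simp only [vl, Bool.toNat_true, pow_succ] at h'
        have := ih B (by omega) (by omega)
        simp only [incL, List.length_cons]
        omega

theorem length_incL' (l : List Bool) : (incL l).length ≤ l.length + 1 := by
  induction l with
  | nil => simp [incL]
  | cons b l ih => cases b <;> simp [incL]; omega

theorem length_decL (l : List Bool) : (decL l).length = l.length := by
  induction l with
  | nil => rfl
  | cons b l ih => cases b <;> simp [decL, ih]

/-! ### tape contents -/

/-- Symbols: `none` is the blank, `some none` the mark, `some (some b)` a digit. -/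
abbrev Sy := Option (Option Bool)

/-- a digit -/
def dg (b : Bool) : Sy := some (some b)

/-- the contents of a tape -/
def enc (q : List Sy) : ℕ → Sy := fun i => q.getD i none

theorem enc_at (p : List Sy) (x : Sy) (l : List Sy) : enc (p ++ x :: l) p.length = x := by
  simp [enc, List.getD_eq_getElem?_getD]

theorem enc_end (p : List Sy) : enc p p.length = none := by
  simp [enc, List.getD_eq_getElem?_getD]

theorem enc_upd (p : List Sy) (x y : Sy) (l : List Sy) :
    Function.update (enc (p ++ x :: l)) p.length y = enc (p ++ y :: l) := by
  funext i
  by_cases h : i = p.length
  · subst h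
    rw [Function.update_self, enc_at]
  · rw [Function.update_of_ne h]
    simp only [enc, List.getD_eq_getElem?_getD]
    rcases lt_or_gt_of_ne h with h1 | h1
    · rw [List.getElem?_append_left h1, List.getElem?_append_left h1]
    · rw [List.getElem?_append_right h1.le, List.getElem?_append_right h1.le]
      obtain ⟨m, hm⟩ : ∃ m, i - p.length = m + 1 := ⟨i - p.length - 1, by omega⟩
      rw [hm]
      simp

theorem enc_upd' (p : List Sy) (y : Sy) :
    Function.update (enc p) p.length y = enc (p ++ [y]) := by
  have h : enc p = enc (p ++ [none]) := by
    funext i
    simp only [enc, List.getD_eq_getElem?_getD]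
    rcases lt_trichotomy i p.length with h1 | h1 | h1
    · rw [List.getElem?_append_left h1]
    · subst h1; simp
    · rw [List.getElem?_append_right h1.le]
      obtain ⟨m, hm⟩ : ∃ m, i - p.length = m + 1 := ⟨i - p.length - 1, by omega⟩
      rw [hm]
      simp [List.getElem?_eq_none h1.le]
  rw [h, enc_upd]

theorem within_enc {q : List Sy} {h s : ℕ} (h1 : h < s) (h2 : q.length ≤ s) :
    Within (none : Sy) s ⟨enc q, h⟩ := by
  refine ⟨h1, fun j hj => ?_⟩
  simp only [enc, List.getD_eq_getElem?_getD]
  rw [List.getElem?_eq_none (by omega)]
  rfl

/-! ### the machine -/

/-- cut off at `M` -/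
def cl (M n : ℕ) : Fin (M + 1) := ⟨min n M, by omega⟩

theorem cl_val {M n : ℕ} (h : n ≤ M) : ((cl M n : Fin (M + 1)) : ℕ) = n := by simp [cl, h]

/-- no change -/
def idle {K : ℕ} (y : Fin (K + 1) → Sy) : Fin (K + 1) → Sy × Dir := fun i => (y i, .stay)

/-- one tape is changed -/
def act1 {K : ℕ} (r : Fin (K + 1)) (y : Fin (K + 1) → Sy) (x : Sy) (d : Dir) :
    Fin (K + 1) → Sy × Dir := fun i => if i = r then (x, d) else (y i, .stay)

/-- The transition function. States: `none` is the start state, otherwise an address and `none` (all
heads are on the cells `0`), `some none` (scanning), `some (some r)` (the head of tape `r`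
returns). -/
def dl {S : Type} (M K : ℕ) (D : ℕ → Ins ⊕ Option S) :
    Option (Fin (M + 1) × Option (Option (Fin (K + 1)))) → (Fin (K + 1) → Sy) →
      Option (Fin (M + 1) × Option (Option (Fin (K + 1)))) × (Fin (K + 1) → Sy × Dir) × Option S
  | none, _ => (some (cl M 0, none), fun _ => (some none, .stay), none)
  | some (p, none), y =>
    match D p with
    | .inr o => (some (cl M (p + 1), none), idle y, o)
    | .inl (.jmp t) => (some (cl M t, none), idle y, none)
    | .inl (.inc r) => (some (p, some none), act1 (cl K r) y (y (cl K r)) .right, none)
    | .inl (.dec r) => (some (p, some none), act1 (cl K r) y (y (cl K r)) .right, none)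
    | .inl (.jz r _) => (some (p, some none), act1 (cl K r) y (y (cl K r)) .right, none)
  | some (p, some none), y =>
    match D p with
    | .inr _ => (some (p, some none), idle y, none)
    | .inl (.jmp _) => (some (p, some none), idle y, none)
    | .inl (.inc r) =>
      if y (cl K r) = dg true then
        (some (p, some none), act1 (cl K r) y (dg false) .right, none)
      else (some (cl M (p + 1), some (some (cl K r))), act1 (cl K r) y (dg true) .stay, none)
    | .inl (.dec r) =>
      if y (cl K r) = dg false then
        (some (p, some none), act1 (cl K r) y (dg true) .right, none)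
      else (some (cl M (p + 1), some (some (cl K r))), act1 (cl K r) y (dg false) .stay, none)
    | .inl (.jz r t) =>
      if y (cl K r) = dg false then
        (some (p, some none), act1 (cl K r) y (dg false) .right, none)
      else if y (cl K r) = dg true then (some (cl M (p + 1), some (some (cl K r))), idle y, none)
      else (some (cl M t, some (some (cl K r))), idle y, none)
  | some (p, some (some r)), y =>
    if y r = some none then (some (p, none), idle y, none)
    else (some (p, some (some r)), act1 r y (y r) .left, none)

/-- The machine of a goto code. -/
@[reducible] def mac {S : Type} (M K : ℕ) (D : ℕ → Ins ⊕ Option S) : Machine (K + 1) S where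
  St := Option (Fin (M + 1) × Option (Option (Fin (K + 1))))
  Sym := Sy
  finSt := inferInstance
  finSym := inferInstance
  start := none
  blank := none
  δ := dl M K D

variable {S : Type} {M K : ℕ} {D : ℕ → Ins ⊕ Option S}

theorem step_idle (st : Option (Fin (M + 1) × Option (Option (Fin (K + 1)))))
    (T : Fin (K + 1) → Tape Sy) (out : List S)
    (st' : Option (Fin (M + 1) × Option (Option (Fin (K + 1))))) (o : Option S)
    (h : dl M K D st (fun i => (T i).cell (T i).head) =
      (st', idle (fun i => (T i).cell (T i).head), o)) :
    (mac M K D).step ⟨st, T, out⟩ = ⟨st', T, out ++ o.toList⟩ := by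
  unfold Machine.step
  simp only [h]
  congr 1
  funext i
  simp only [idle, Function.update_eq_self, Dir.move]

theorem step_act1 (st : Option (Fin (M + 1) × Option (Option (Fin (K + 1)))))
    (T : Fin (K + 1) → Tape Sy) (out : List S)
    (st' : Option (Fin (M + 1) × Option (Option (Fin (K + 1))))) (r : Fin (K + 1)) (x : Sy)
    (d : Dir)
    (h : dl M K D st (fun i => (T i).cell (T i).head) =
      (st', act1 r (fun i => (T i).cell (T i).head) x d, none)) :
    (mac M K D).step ⟨st, T, out⟩ = ⟨st', Function.update T r
      ⟨Function.update (T r).cell (T r).head x, d.move (T r).head⟩, out⟩ := by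
  unfold Machine.step
  simp only [h, Option.toList_none, List.append_nil]
  congr 1
  funext i
  by_cases hi : i = r
  · subst hi
    simp only [act1, if_pos, Function.update_self]
  · simp only [act1, if_neg hi, Function.update_of_ne hi, Function.update_eq_self, Dir.move]

end Pool.Agent.TH751.RM
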